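import Mathlib
import Pool.Agent.H57.Circ

namespace Pool.Agent.Results.MP_cf7092_nt.Holds

/-- For every odd prime p, twice the permanent of the p by p matrix of |j - k|, plus one,
is divisible by p. -/
theorem result : ∀ p : ℕ, p.Prime → p ≠ 2 →
    (p : ℤ) ∣ 2 * (Matrix.of fun j k : Fin p =>
      |(((j : ℕ) : ℤ) + 1) - (((k : ℕ) : ℤ) + 1)|).permanent + 1 := by
  intro p hp h2
  have := Fact.mk hp
  have h := Pool.Agent.H57.Circ.abs_fin h2 0
  simpa using h

end Pool.Agent.Results.MP_cf7092_nt.Holds
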